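import Pool.Agent.Helper34.PU.Goals

/-!
Packet SLOT of MP_8060f4_co : from a cover to slots.
-/

set_option autoImplicit false

open Finset Function
open scoped Classical

namespace Pool.Agent.Helper14.PU

open Pool.Agent.Helper34.PU

theorem card_inst {α : Type*} (S : Finset α) (p : α → Prop) (d1 d2 : DecidablePred p) :
    (@Finset.filter α p d1 S).card = (@Finset.filter α p d2 S).card := by
  have h : d1 = d2 := Subsingleton.elim _ _
  subst h
  rfl

theorem mem_inst {α : Type*} (S : Finset α) (p : α → Prop) (d : DecidablePred p) (a : α) :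
    a ∈ @Finset.filter α p d S ↔ a ∈ S ∧ p a := by
  exact @Finset.mem_filter α p d S a

/-- number of (adjacent or equal) pairs whose first or second coordinate is in `A` -/
theorem card_pairs {n : ℕ} (Δ : ℕ) (H : SimpleGraph (Fin n)) (hdeg : MaxDeg H Δ)
    (A : Finset (Fin n)) (K : ℕ) (hA : A.card ≤ K) :
    (univ.filter (fun p : {p : Fin n × Fin n // p.1 = p.2 ∨ H.Adj p.1 p.2} =>
      p.1.1 ∈ A ∨ p.1.2 ∈ A)).card ≤ 2 * K * (Δ + 1) := by
  have hS : (A.sigma (fun a => insert a (nbr H a))).card ≤ K * (Δ + 1) := by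
    rw [card_sigma]
    calc ∑ a ∈ A, (insert a (nbr H a)).card ≤ ∑ _a ∈ A, (Δ + 1) := by
          apply sum_le_sum
          intro a _
          exact (card_insert_le _ _).trans (Nat.add_le_add_right (hdeg a) 1)
      _ = A.card * (Δ + 1) := by simp
      _ ≤ K * (Δ + 1) := Nat.mul_le_mul_right _ hA
  have h1 : (univ.filter (fun p : {p : Fin n × Fin n // p.1 = p.2 ∨ H.Adj p.1 p.2} =>
      p.1.1 ∈ A)).card ≤ K * (Δ + 1) := by
    refine le_trans ?_ hS
    apply card_le_card_of_injOn (fun p => (⟨p.1.1, p.1.2⟩ : Σ _ : Fin n, Fin n))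
    · intro p hp
      have hp' : p.1.1 ∈ A := by simpa using hp
      rw [mem_coe, mem_sigma]
      refine ⟨hp', ?_⟩
      rw [mem_insert]
      rcases p.2 with h | h
      · left; exact h.symm
      · right
        simpa [nbr] using h
    · intro p _ q _ hpq
      simp only [Sigma.mk.injEq, heq_eq_eq] at hpq
      apply Subtype.ext
      exact Prod.ext hpq.1 hpq.2
  have h2 : (univ.filter (fun p : {p : Fin n × Fin n // p.1 = p.2 ∨ H.Adj p.1 p.2} =>
      p.1.2 ∈ A)).card ≤ K * (Δ + 1) := by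
    refine le_trans ?_ hS
    apply card_le_card_of_injOn (fun p => (⟨p.1.2, p.1.1⟩ : Σ _ : Fin n, Fin n))
    · intro p hp
      have hp' : p.1.2 ∈ A := by simpa using hp
      rw [mem_coe, mem_sigma]
      refine ⟨hp', ?_⟩
      rw [mem_insert]
      rcases p.2 with h | h
      · left; exact h
      · right
        simpa [nbr] using h.symm
    · intro p _ q _ hpq
      simp only [Sigma.mk.injEq, heq_eq_eq] at hpq
      apply Subtype.ext
      exact Prod.ext hpq.2 hpq.1
  rw [filter_or]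
  calc _ ≤ _ := card_union_le _ _
    _ ≤ K * (Δ + 1) + K * (Δ + 1) := Nat.add_le_add h1 h2
    _ = 2 * K * (Δ + 1) := by ring

theorem slot (h : TypeStmt) : SlotStmt := by
  intro n Δ β s K H hdeg hs1 hsβ hK hcov
  obtain ⟨ι, _, X, hXK, hXβ0, hXs0, hXsing⟩ := hcov
  have hXβ : ∀ v, (univ.filter (fun j => v ∈ X j)).card = β :=
    fun v => (card_inst _ _ _ _).trans (hXβ0 v)
  have hXs : ∀ u v, H.Adj u v → (univ.filter (fun j => u ∈ X j ∧ v ∈ X j)).card = s :=
    fun u v huv => (card_inst _ _ _ _).trans (hXs0 u v huv)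
  obtain ⟨τ, hτ⟩ := h ι (Fin n) X K β hXK (fun v => (hXβ0 v).le)
  -- injectivity of the colouring
  have inj : ∀ v w, (∃ k, v ∈ X k ∧ w ∈ X k) → ∀ i j, (v ∈ X i ∨ w ∈ X i) →
      (v ∈ X j ∨ w ∈ X j) → τ i = τ j → i = j := by
    rintro v w ⟨k, hvk, hwk⟩ i j hi hj hij
    by_contra hne
    refine hτ i j hne ?_ hij
    rcases hi with hi | hi <;> rcases hj with hj | hj
    · exact ⟨k, v, v, hi, hvk, hj, hvk⟩
    · exact ⟨k, v, w, hi, hvk, hj, hwk⟩
    · exact ⟨k, w, v, hi, hwk, hj, hvk⟩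
    · exact ⟨k, w, w, hi, hwk, hj, hwk⟩
  have common : ∀ v w, (v = w ∨ H.Adj v w) → ∃ k, v ∈ X k ∧ w ∈ X k := by
    rintro v w (hvw | hvw)
    · subst hvw
      obtain ⟨k, hk⟩ := hXsing v
      exact ⟨k, by simp [hk], by simp [hk]⟩
    · have hc := hXs v w hvw
      have hpos : 0 < (univ.filter (fun j => v ∈ X j ∧ w ∈ X j)).card := by omega
      obtain ⟨k, hk⟩ := card_pos.1 hpos
      exact ⟨k, by simpa using hk⟩
  -- types
  have typcard : ∀ v, ((univ.filter (fun j => v ∈ X j)).image τ).card = β := by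
    intro v
    rw [card_image_of_injOn, hXβ v]
    intro i hi j hj hij
    have hi' : v ∈ X i := by simpa using hi
    have hj' : v ∈ X j := by simpa using hj
    exact inj v v (common v v (Or.inl rfl)) i j (Or.inl hi') (Or.inl hj') hij
  let typ : Fin n → Idx (K ^ 2 * β ^ 2 + 1) β :=
    fun v => ⟨(univ.filter (fun j => v ∈ X j)).image τ, typcard v⟩
  have typmem : ∀ v j, j ∈ (typ v).1 ↔ ∃ i, v ∈ X i ∧ τ i = j := by
    intro v j
    simp [typ]
  have tyinter : ∀ v w, H.Adj v w → ((typ v).1 ∩ (typ w).1).card = s := by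
    intro v w hvw
    have h1 : (typ v).1 ∩ (typ w).1 = (univ.filter (fun j => v ∈ X j ∧ w ∈ X j)).image τ := by
      ext j
      simp only [mem_inter, typmem, mem_image, mem_filter, mem_univ, true_and]
      constructor
      · rintro ⟨⟨i, hi, hij⟩, ⟨i', hi', hij'⟩⟩
        have : i = i' := inj v w (common v w (Or.inr hvw)) i i' (Or.inl hi) (Or.inr hi')
          (hij.trans hij'.symm)
        subst this
        exact ⟨i, ⟨hi, hi'⟩, hij⟩
      · rintro ⟨i, ⟨hi, hi'⟩, hij⟩
        exact ⟨⟨i, hi, hij⟩, ⟨i, hi', hij⟩⟩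
    rw [h1, card_image_of_injOn, hXs v w hvw]
    intro i hi j hj hij
    have hi' : v ∈ X i ∧ w ∈ X i := by simpa using hi
    have hj' : v ∈ X j ∧ w ∈ X j := by simpa using hj
    exact inj v w (common v w (Or.inr hvw)) i j (Or.inl hi'.1) (Or.inl hj'.1) hij
  have tyne : ∀ v w, H.Adj v w → typ v ≠ typ w := by
    intro v w hvw heq
    have h1 := tyinter v w hvw
    rw [heq, inter_self, (typ w).2] at h1
    omega
  -- edges
  let E := {p : Fin n × Fin n // p.1 = p.2 ∨ H.Adj p.1 p.2}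
  let Y := ι ⊕ (Fin n ⊕ E)
  let e : Fin n → Fin n → E := fun v w =>
    if hvw : v = w ∨ H.Adj v w then ⟨(v, w), hvw⟩ else ⟨(v, v), Or.inl rfl⟩
  have e_adj : ∀ v w, H.Adj v w → (e v w).1 = (v, w) := by
    intro v w hvw
    simp [e, hvw]
  have e_diag : ∀ v, (e v v).1 = (v, v) := by
    intro v
    simp [e]
  let fl : Fin (K ^ 2 * β ^ 2 + 1) → E → Y := fun j p =>
    if h1 : ∃ i, p.1.1 ∈ X i ∧ τ i = j then Sum.inl h1.choose
    else if h2 : ∃ i, p.1.2 ∈ X i ∧ τ i = j then Sum.inl h2.choose else Sum.inr (Sum.inr p)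
  let pt : Idx (K ^ 2 * β ^ 2 + 1) β → E → Y := fun I p =>
    if typ p.1.1 = I then Sum.inr (Sum.inl p.1.1)
    else if typ p.1.2 = I then Sum.inr (Sum.inl p.1.2) else Sum.inr (Sum.inr p)
  have F1 : ∀ (p : E) (i : ι), (p.1.1 ∈ X i ∨ p.1.2 ∈ X i) → fl (τ i) p = Sum.inl i := by
    intro p i hpi
    have hc := common p.1.1 p.1.2 p.2
    by_cases h1 : ∃ i', p.1.1 ∈ X i' ∧ τ i' = τ i
    · have : h1.choose = i :=
        inj _ _ hc _ _ (Or.inl h1.choose_spec.1) hpi h1.choose_spec.2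
      simp only [fl, dif_pos h1, this]
    · by_cases h2 : ∃ i', p.1.2 ∈ X i' ∧ τ i' = τ i
      · have : h2.choose = i :=
          inj _ _ hc _ _ (Or.inr h2.choose_spec.1) hpi h2.choose_spec.2
        simp only [fl, dif_neg h1, dif_pos h2, this]
      · exfalso
        rcases hpi with hpi | hpi
        · exact h1 ⟨i, hpi, rfl⟩
        · exact h2 ⟨i, hpi, rfl⟩
  have F2 : ∀ (j : Fin (K ^ 2 * β ^ 2 + 1)) (p : E) (y : Y), fl j p = y →
      (∃ i, y = Sum.inl i ∧ τ i = j ∧ (p.1.1 ∈ X i ∨ p.1.2 ∈ X i)) ∨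
      y = Sum.inr (Sum.inr p) := by
    intro j p y hy
    by_cases h1 : ∃ i', p.1.1 ∈ X i' ∧ τ i' = j
    · left
      simp only [fl, dif_pos h1] at hy
      exact ⟨_, hy.symm, h1.choose_spec.2, Or.inl h1.choose_spec.1⟩
    · by_cases h2 : ∃ i', p.1.2 ∈ X i' ∧ τ i' = j
      · left
        simp only [fl, dif_neg h1, dif_pos h2] at hy
        exact ⟨_, hy.symm, h2.choose_spec.2, Or.inr h2.choose_spec.1⟩
      · right
        simp only [fl, dif_neg h1, dif_neg h2] at hy
        exact hy.symm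
  have G1 : ∀ p : E, pt (typ p.1.1) p = Sum.inr (Sum.inl p.1.1) := by
    intro p
    simp only [pt, if_true]
  have G2 : ∀ p : E, pt (typ p.1.2) p = Sum.inr (Sum.inl p.1.2) := by
    intro p
    rcases p.2 with h' | h'
    · have := G1 p
      rw [← h']
      exact this
    · simp only [pt, if_neg (tyne _ _ h'), if_true]
  have G3 : ∀ (I : Idx (K ^ 2 * β ^ 2 + 1) β) (p : E) (y : Y), pt I p = y →
      (∃ u, y = Sum.inr (Sum.inl u) ∧ (p.1.1 = u ∨ p.1.2 = u)) ∨ y = Sum.inr (Sum.inr p) := by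
    intro I p y hy
    by_cases h1 : typ p.1.1 = I
    · left
      simp only [pt, if_pos h1] at hy
      exact ⟨_, hy.symm, Or.inl rfl⟩
    · by_cases h2 : typ p.1.2 = I
      · left
        simp only [pt, if_neg h1, if_pos h2] at hy
        exact ⟨_, hy.symm, Or.inr rfl⟩
      · right
        simp only [pt, if_neg h1, if_neg h2] at hy
        exact hy.symm
  let sl : Fin (K ^ 2 * β ^ 2 + 1 + Fintype.card (Idx (K ^ 2 * β ^ 2 + 1) β)) → E → Y :=
    fun j p => Fin.addCases (motive := fun _ => Y) (fun j => fl j p)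
      (fun j => pt ((Fintype.equivFin (Idx (K ^ 2 * β ^ 2 + 1) β)).symm j) p) j
  have slL : ∀ j p, sl (Fin.castAdd _ j) p = fl j p := by
    intro j p
    simp only [sl, Fin.addCases_left]
  have slR : ∀ I p, sl (Fin.natAdd _ (Fintype.equivFin _ I)) p = pt I p := by
    intro I p
    simp only [sl, Fin.addCases_right, Equiv.symm_apply_apply]
  have slR' : ∀ j p, sl (Fin.natAdd _ j) p =
      pt ((Fintype.equivFin (Idx (K ^ 2 * β ^ 2 + 1) β)).symm j) p := by
    intro j p
    simp only [sl, Fin.addCases_right]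
  have cases3 : ∀ (j : Fin (K ^ 2 * β ^ 2 + 1 + Fintype.card (Idx (K ^ 2 * β ^ 2 + 1) β)))
      (p : E) (y : Y), sl j p = y →
      (∃ i, y = Sum.inl i ∧ (p.1.1 ∈ X i ∨ p.1.2 ∈ X i)) ∨
      (∃ u, y = Sum.inr (Sum.inl u) ∧ (p.1.1 = u ∨ p.1.2 = u)) ∨
      y = Sum.inr (Sum.inr p) := by
    intro j p y hy
    refine Fin.addCases (motive := fun j => sl j p = y → _) ?_ ?_ j hy
    · intro i hi
      rw [slL] at hi
      rcases F2 _ _ _ hi with ⟨i', h1, _, h3⟩ | h1
      · exact Or.inl ⟨i', h1, h3⟩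
      · exact Or.inr (Or.inr h1)
    · intro i hi
      rw [slR'] at hi
      exact Or.inr (G3 _ _ _ hi)
  refine ⟨E, Y, inferInstance, inferInstance, sl, typ, e, ?_, ?_, ?_, ?_, ?_, tyinter, ?_, ?_⟩
  · -- fibres
    intro j y
    rcases y with i | u | p0
    · refine (card_le_card ?_).trans (card_pairs Δ H hdeg (X i) K (hXK i))
      intro p hp
      have hp' : sl j p = Sum.inl i := ((mem_inst _ _ _ _).1 hp).2
      rw [mem_inst]
      refine ⟨mem_univ _, ?_⟩
      rcases cases3 _ _ _ hp' with ⟨i', h1, h2⟩ | ⟨u, h1, _⟩ | h1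
      · rw [Sum.inl.inj h1]; exact h2
      · exact absurd h1 (by simp)
      · exact absurd h1 (by simp)
    · refine (card_le_card ?_).trans (card_pairs Δ H hdeg {u} K (by rw [card_singleton]; exact hK))
      intro p hp
      have hp' : sl j p = Sum.inr (Sum.inl u) := ((mem_inst _ _ _ _).1 hp).2
      rw [mem_inst]
      refine ⟨mem_univ _, ?_⟩
      rcases cases3 _ _ _ hp' with ⟨i', h1, h2⟩ | ⟨u', h1, h2⟩ | h1
      · exact absurd h1 Sum.inr_ne_inl
      · rw [Sum.inl.inj (Sum.inr.inj h1), mem_singleton, mem_singleton]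
        exact h2
      · exact absurd (Sum.inr.inj h1) Sum.inl_ne_inr
    · refine le_trans (b := ({p0} : Finset E).card) (card_le_card ?_) ?_
      · intro p hp
        have hp' : sl j p = Sum.inr (Sum.inr p0) := ((mem_inst _ _ _ _).1 hp).2
        rw [mem_singleton]
        rcases cases3 _ _ _ hp' with ⟨i', h1, h2⟩ | ⟨u', h1, h2⟩ | h1
        · exact absurd h1 Sum.inr_ne_inl
        · exact absurd (Sum.inr.inj h1) Sum.inr_ne_inl
        · exact (Sum.inr.inj (Sum.inr.inj h1)).symm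
      rw [card_singleton]
      have : 0 < K * (Δ + 1) := Nat.mul_pos hK (Nat.succ_pos _)
      nlinarith
  · -- flags, first end
    intro v w hvw j hj
    rw [slL, slL]
    obtain ⟨i, hi, hij⟩ := (typmem v j).1 hj
    rw [← hij, F1 (e v w) i (Or.inl (by rw [e_adj v w hvw]; exact hi)),
      F1 (e v v) i (Or.inl (by rw [e_diag v]; exact hi))]
  · intro v w hvw j hj
    rw [slL, slL]
    obtain ⟨i, hi, hij⟩ := (typmem w j).1 hj
    rw [← hij, F1 (e v w) i (Or.inr (by rw [e_adj v w hvw]; exact hi)),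
      F1 (e w w) i (Or.inl (by rw [e_diag w]; exact hi))]
  · intro v w hvw
    rw [slR, slR]
    have h1 := G1 (e v w)
    have h2 := G1 (e v v)
    rw [e_adj v w hvw] at h1
    rw [e_diag v] at h2
    rw [h1, h2]
  · intro v w hvw
    rw [slR, slR]
    have h1 := G2 (e v w)
    have h2 := G1 (e w w)
    rw [e_adj v w hvw] at h1
    rw [e_diag w] at h2
    rw [h1, h2]
  · intro j y
    rcases y with i | y'
    · refine (card_le_card ?_).trans (hXK i)
      intro v hv
      have hv' : j ∈ (typ v).1 ∧ sl (Fin.castAdd _ j) (e v v) = Sum.inl i :=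
        ((mem_inst _ _ _ _).1 hv).2
      rw [slL] at hv'
      rcases F2 _ _ _ hv'.2 with ⟨i', h1, _, h3⟩ | h1
      · rw [Sum.inl.inj h1]
        rw [e_diag v] at h3
        simpa using h3
      · exact absurd h1 (by simp)
    · refine le_trans (b := (∅ : Finset (Fin n)).card) (card_le_card ?_) (by simp)
      intro v hv
      exfalso
      obtain ⟨hv1, hv2⟩ := ((mem_inst _ _ _ _).1 hv).2
      obtain ⟨i, hi, hij⟩ := (typmem v j).1 hv1
      rw [slL, ← hij, F1 (e v v) i (Or.inl (by rw [e_diag v]; exact hi))] at hv2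
      exact absurd hv2 (by simp)
  · intro j v w hvw hj hty heq
    obtain ⟨i, hi, hij⟩ := (typmem v j).1 hj
    rw [hty] at hj
    obtain ⟨i', hi', hij'⟩ := (typmem w j).1 hj
    rw [slL, slL] at heq
    have e1 : fl j (e v v) = Sum.inl i := by
      rw [← hij]; exact F1 (e v v) i (Or.inl (by rw [e_diag v]; exact hi))
    have e2 : fl j (e w w) = Sum.inl i' := by
      rw [← hij']; exact F1 (e w w) i' (Or.inl (by rw [e_diag w]; exact hi'))
    rw [e1, e2] at heq
    have hii : i = i' := Sum.inl.inj heq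
    subst hii
    obtain ⟨i0, hi0⟩ := hXsing v
    have hv0 : v ∈ X i0 := by simp [hi0]
    have hm : τ i0 ∈ (typ v).1 := (typmem v _).2 ⟨i0, hv0, rfl⟩
    rw [hty] at hm
    obtain ⟨i1, hi1, hi1'⟩ := (typmem w _).1 hm
    have : i1 = i0 := inj v w ⟨i, hi, hi'⟩ i1 i0 (Or.inr hi1) (Or.inl hv0) hi1'
    rw [this, hi0, mem_singleton] at hi1
    exact hvw hi1.symm

end Pool.Agent.Helper14.PU
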